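import Pool.Agent.K4H66.HL.U

set_option autoImplicit false

/-! The matrix side: truncated powers of characteristic polynomials. -/

namespace Pool.Agent.K4H66.LP

open Complex MeasureTheory Filter Topology Set Pool.Agent.R446.KR Pool.Agent.K4H66.HL
open scoped ComplexConjugate Matrix

noncomputable section

lemma pp_rev (k : ℕ) {N : ℕ} (U : Matrix (Fin N) (Fin N) ℂ) : U.charpolyRev ^ k = pp k U := by
  unfold pp Matrix.charpolyRev
  congr 2
  have e : (-U).map (Polynomial.C : ℂ → Polynomial ℂ) = -(U.map Polynomial.C) := by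
    ext i j
    simp
  rw [e, smul_neg, Matrix.map_one _ (map_zero _) (map_one _)]
  rw [sub_eq_neg_add]

/-- `g`-weighted second moments of the coefficients of `det(1 - XU)^k` -/
def oN (k N : ℕ) (g : ℝ → ℝ) : ℝ := ((N : ℝ) ^ (k ^ 2))⁻¹ * ∫ U : Matrix.unitaryGroup (Fin N) ℂ,
  ∑ m ∈ Finset.range (k * N + 1), ‖(pp k (U : Matrix (Fin N) (Fin N) ℂ)).coeff m‖ ^ 2 * g ((m : ℝ) / N) ∂(haarU N)

lemma pp_smul (k : ℕ) {N : ℕ} (U : Matrix (Fin N) (Fin N) ℂ) (ζ : ℂ) (m : ℕ) :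
    (pp k (ζ • U)).coeff m = ζ ^ m * (pp k U).coeff m := by
  have e : pp k (ζ • U) = (pp k U).comp (Polynomial.C ζ * Polynomial.X) := by
    refine Polynomial.funext fun x => ?_
    rw [Polynomial.eval_comp, pp_eval, pp_eval, smul_smul, Polynomial.eval_mul, Polynomial.eval_C,
      Polynomial.eval_X, mul_comm]
  rw [e, Polynomial.comp_C_mul_X_coeff, mul_comm]

/-- the truncated polynomial at `1` -/
def Pt (φ : ℝ → ℂ) (k N : ℕ) (U : Matrix (Fin N) (Fin N) ℂ) : ℂ :=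
  ∑ m ∈ Finset.range (k * N + 1), (pp k U).coeff m * φ ((m : ℝ) / N)

lemma coeff_cont (k N m : ℕ) : Continuous (fun U : Matrix.unitaryGroup (Fin N) ℂ =>
    (pp k (U : Matrix (Fin N) (Fin N) ℂ)).coeff m) := by
  have e : ∀ U : Matrix.unitaryGroup (Fin N) ℂ, (pp k (U : Matrix (Fin N) (Fin N) ℂ)).coeff m =
      ∑ i ∈ Finset.range (k * N + 1), (1 - (i : ℂ) • (U : Matrix (Fin N) (Fin N) ℂ)).det ^ k *
        (Lagrange.basis (Finset.range (k * N + 1)) (fun i : ℕ => (i : ℂ)) i).coeff m := by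
    intro U
    have h1 : Set.InjOn (fun i : ℕ => (i : ℂ)) (Finset.range (k * N + 1)) :=
      fun a _ b _ h => by
        have h' : (a : ℂ) = (b : ℂ) := h
        exact_mod_cast h'
    have h2 : (pp k (U : Matrix (Fin N) (Fin N) ℂ)).degree < (Finset.range (k * N + 1)).card := by
      rw [Finset.card_range]
      have := pp_deg k (U : Matrix (Fin N) (Fin N) ℂ)
      exact (Polynomial.degree_le_natDegree).trans_lt (by exact_mod_cast this)
    conv_lhs => rw [Lagrange.eq_interpolate h1 h2]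
    rw [Lagrange.interpolate_apply, Polynomial.finsetSum_coeff]
    refine Finset.sum_congr rfl fun i _ => ?_
    rw [Polynomial.coeff_C_mul, pp_eval]
  simp_rw [e]
  have h : Continuous (fun U : Matrix.unitaryGroup (Fin N) ℂ => (U : Matrix (Fin N) (Fin N) ℂ)) := continuous_subtype_val
  refine continuous_finsetSum _ fun i _ => Continuous.mul ?_ continuous_const
  exact ((continuous_const.sub (h.const_smul (i : ℂ))).matrix_det).pow k

lemma rint {N : ℕ} {f : Matrix.unitaryGroup (Fin N) ℂ → ℝ} (hf : Continuous f) : Integrable f (haarU N) :=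
  hf.integrable_of_hasCompactSupport (HasCompactSupport.of_compactSpace f)

lemma Pt_cont (φ : ℝ → ℂ) (k N : ℕ) : Continuous (fun U : Matrix.unitaryGroup (Fin N) ℂ =>
    Pt φ k N (U : Matrix (Fin N) (Fin N) ℂ)) := by
  unfold Pt
  exact continuous_finsetSum _ fun m _ => (coeff_cont k N m).mul continuous_const

lemma sq_cont (k N : ℕ) (g : ℝ → ℝ) : Continuous (fun U : Matrix.unitaryGroup (Fin N) ℂ =>
    ∑ m ∈ Finset.range (k * N + 1), ‖(pp k (U : Matrix (Fin N) (Fin N) ℂ)).coeff m‖ ^ 2 * g ((m : ℝ) / N)) :=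
  continuous_finsetSum _ fun m _ => ((coeff_cont k N m).norm.pow 2).mul continuous_const

lemma Pt_avg (φ : ℝ → ℂ) (k N : ℕ) (U : Matrix.unitaryGroup (Fin N) ℂ) :
    ((k * N + 1 : ℕ) : ℝ)⁻¹ * ∑ l ∈ Finset.range (k * N + 1),
      ‖Pt φ k N ((sc N (2 * Real.pi * l / (k * N + 1 : ℕ)) * U : Matrix.unitaryGroup (Fin N) ℂ) :
        Matrix (Fin N) (Fin N) ℂ)‖ ^ 2 =
    ∑ m ∈ Finset.range (k * N + 1), ‖(pp k (U : Matrix (Fin N) (Fin N) ℂ)).coeff m‖ ^ 2 *
      (fun x => ‖φ x‖ ^ 2) ((m : ℝ) / N) := by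
  have hn : ((k * N + 1 : ℕ) : ℝ) ≠ 0 := Nat.cast_ne_zero.2 (Nat.succ_ne_zero (k * N))
  rw [inv_mul_eq_iff_eq_mul₀ hn]
  set p : Polynomial ℂ := ∑ m ∈ Finset.range (k * N + 1),
    Polynomial.monomial m ((pp k (U : Matrix (Fin N) (Fin N) ℂ)).coeff m * φ ((m : ℝ) / N)) with hp
  have hdeg : p.natDegree < k * N + 1 := by
    refine Nat.lt_succ_of_le ?_
    refine Polynomial.natDegree_sum_le_of_forall_le _ _ fun m hm => ?_
    exact (Polynomial.natDegree_monomial_le _).trans (Nat.lt_succ_iff.1 (Finset.mem_range.1 hm))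
  have hco : ∀ m ∈ Finset.range (k * N + 1), p.coeff m =
      (pp k (U : Matrix (Fin N) (Fin N) ℂ)).coeff m * φ ((m : ℝ) / N) := by
    intro m hm
    rw [hp, Polynomial.finsetSum_coeff]
    simp only [Polynomial.coeff_monomial]
    rw [Finset.sum_ite_eq' _ m, if_pos hm]
  have h1 := avg p hdeg 1
  have h2 : ∀ l ∈ Finset.range (k * N + 1), p.eval (cexp (2 * Real.pi * I * l / (k * N + 1 : ℕ)) * 1) =
      Pt φ k N ((sc N (2 * Real.pi * l / (k * N + 1 : ℕ)) * U : Matrix.unitaryGroup (Fin N) ℂ) :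
        Matrix (Fin N) (Fin N) ℂ) := by
    intro l _
    unfold Pt
    rw [sc_mul, hp, Polynomial.eval_finset_sum, mul_one]
    refine Finset.sum_congr rfl fun m _ => ?_
    have e : cexp (((2 * Real.pi * l / (k * N + 1 : ℕ) : ℝ) : ℂ) * I) =
        cexp (2 * Real.pi * I * l / (k * N + 1 : ℕ)) := by
      congr 1; push_cast; ring
    rw [Polynomial.eval_monomial, pp_smul, e]
    ring
  have h3 : (∑ l ∈ Finset.range (k * N + 1), ((‖Pt φ k N ((sc N (2 * Real.pi * l / (k * N + 1 : ℕ)) * U :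
      Matrix.unitaryGroup (Fin N) ℂ) : Matrix (Fin N) (Fin N) ℂ)‖ ^ 2 : ℝ) : ℂ)) =
      ((k * N + 1 : ℕ) : ℂ) * ∑ m ∈ Finset.range (k * N + 1),
        ((‖(pp k (U : Matrix (Fin N) (Fin N) ℂ)).coeff m‖ ^ 2 * ‖φ ((m : ℝ) / N)‖ ^ 2 : ℝ) : ℂ) := by
    calc _ = ∑ l ∈ Finset.range (k * N + 1), p.eval (cexp (2 * Real.pi * I * l / (k * N + 1 : ℕ)) * 1) *
          conj (p.eval (cexp (2 * Real.pi * I * l / (k * N + 1 : ℕ)) * conj 1)) := by
          refine Finset.sum_congr rfl fun l hl => ?_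
          rw [map_one, h2 l hl, Complex.mul_conj, Complex.normSq_eq_norm_sq]
      _ = _ := h1
      _ = _ := by
          congr 1
          refine Finset.sum_congr rfl fun m hm => ?_
          rw [hco m hm, norm_mul, mul_pow, one_pow, mul_one]
  exact_mod_cast h3

/-- the mean square of the truncated polynomial -/
theorem Pt_ms (φ : ℝ → ℂ) (k N : ℕ) :
    ((N : ℝ) ^ (k ^ 2))⁻¹ * ∫ U : Matrix.unitaryGroup (Fin N) ℂ, ‖Pt φ k N (U : Matrix (Fin N) (Fin N) ℂ)‖ ^ 2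
      ∂(haarU N) = oN k N (fun x => ‖φ x‖ ^ 2) := by
  unfold oN
  congr 1
  have hn : ((k * N + 1 : ℕ) : ℝ) ≠ 0 := Nat.cast_ne_zero.2 (Nat.succ_ne_zero (k * N))
  simp_rw [← Pt_avg φ k N]
  have hc : Continuous (fun U : Matrix.unitaryGroup (Fin N) ℂ => ‖Pt φ k N (U : Matrix (Fin N) (Fin N) ℂ)‖ ^ 2) :=
    (Pt_cont φ k N).norm.pow 2
  rw [integral_const_mul, integral_finsetSum]
  · have h : ∀ l ∈ Finset.range (k * N + 1), ∫ U, ‖Pt φ k N ((sc N (2 * Real.pi * l / (k * N + 1 : ℕ)) * U :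
        Matrix.unitaryGroup (Fin N) ℂ) : Matrix (Fin N) (Fin N) ℂ)‖ ^ 2 ∂(haarU N) =
        ∫ U : Matrix.unitaryGroup (Fin N) ℂ, ‖Pt φ k N (U : Matrix (Fin N) (Fin N) ℂ)‖ ^ 2 ∂(haarU N) := by
      intro l _
      exact integral_mul_left_eq_self (μ := haarU N)
        (fun U : Matrix.unitaryGroup (Fin N) ℂ => ‖Pt φ k N (U : Matrix (Fin N) (Fin N) ℂ)‖ ^ 2)
        (sc N (2 * Real.pi * l / (k * N + 1 : ℕ)))
    rw [Finset.sum_congr rfl h, Finset.sum_const, Finset.card_range, nsmul_eq_mul, inv_mul_cancel_left₀ hn]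
  · intro l _
    exact rint (hc.comp (continuous_const.mul continuous_id))

lemma oN_add (k N : ℕ) (g h : ℝ → ℝ) : oN k N (fun x => g x + h x) = oN k N g + oN k N h := by
  unfold oN
  rw [← mul_add, ← integral_add (rint (sq_cont k N g)) (rint (sq_cont k N h))]
  congr 1
  refine integral_congr_ae (Eventually.of_forall fun U => ?_)
  beta_reduce
  rw [← Finset.sum_add_distrib]
  exact Finset.sum_congr rfl fun m _ => by ring

lemma oN_mul (k N : ℕ) (c : ℝ) (g : ℝ → ℝ) : oN k N (fun x => c * g x) = c * oN k N g := by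
  unfold oN
  rw [mul_left_comm]
  congr 1
  rw [← integral_const_mul]
  refine integral_congr_ae (Eventually.of_forall fun U => ?_)
  beta_reduce
  rw [Finset.mul_sum]
  exact Finset.sum_congr rfl fun m _ => by ring

lemma oN_sum (k N : ℕ) {ι : Type} (s : Finset ι) (g : ι → ℝ → ℝ) :
    oN k N (fun x => ∑ j ∈ s, g j x) = ∑ j ∈ s, oN k N (g j) := by
  classical
  induction s using Finset.induction_on with
  | empty =>
    simp only [Finset.sum_empty]
    have := oN_mul k N 0 (fun _ => 0)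
    simpa using this
  | insert a s ha ih =>
    simp only [Finset.sum_insert ha]
    rw [oN_add, ih]

/-- `ω_N` of a cosine is a shifted matrix integral -/
theorem oN_cos (k : ℕ) {N : ℕ} (hN : 1 ≤ N) (α κ : ℝ) :
    oN k N (fun x => Real.cos (α * (k - 2 * x) + κ)) = (cexp ((κ : ℂ) * I) * (ro k α * Wk k α N)).re := by
  have hN0 : (0:ℝ) < N := by exact_mod_cast hN
  have hNc : (N : ℂ) ≠ 0 := by exact_mod_cast hN0.ne'
  have hW : Wk k α N = ((N : ℂ) ^ (k ^ 2))⁻¹ * ∫ U, av k N (cexp (-(I * α / N))) U ∂(haarU N) := by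
    rw [← av_int]; rfl
  have e1 : ∀ U : Matrix.unitaryGroup (Fin N) ℂ, ∑ m ∈ Finset.range (k * N + 1),
      ‖(pp k (U : Matrix (Fin N) (Fin N) ℂ)).coeff m‖ ^ 2 * Real.cos (α * (k - 2 * ((m : ℝ) / N)) + κ) =
      (cexp ((κ : ℂ) * I) * (ro k α * av k N (cexp (-(I * α / N))) U)).re := by
    intro U
    unfold av ro
    rw [Finset.mul_sum, Finset.mul_sum, Complex.re_sum]
    refine Finset.sum_congr rfl fun m _ => ?_
    rw [← Complex.exp_nat_mul]
    have e2 : cexp ((κ : ℂ) * I) * (cexp (((k * α : ℝ) : ℂ) * I) *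
        (((‖(pp k (U : Matrix (Fin N) (Fin N) ℂ)).coeff m‖ ^ 2 : ℝ) : ℂ) * cexp (((2 * m : ℕ) : ℂ) * -(I * α / N)))) =
        ((‖(pp k (U : Matrix (Fin N) (Fin N) ℂ)).coeff m‖ ^ 2 : ℝ) : ℂ) *
          cexp (((α * (k - 2 * ((m : ℝ) / N)) + κ : ℝ) : ℂ) * I) := by
      have e3 : ((α * (k - 2 * ((m : ℝ) / N)) + κ : ℝ) : ℂ) * I =
          (κ : ℂ) * I + (((k * α : ℝ) : ℂ) * I + ((2 * m : ℕ) : ℂ) * -(I * α / N)) := by
        push_cast
        field_simp
        ring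
      rw [e3, Complex.exp_add, Complex.exp_add]
      ring
    rw [e2, Complex.re_ofReal_mul, Complex.exp_ofReal_mul_I_re]
  unfold oN
  simp_rw [e1]
  have hi : Integrable (fun U => cexp ((κ : ℂ) * I) * (ro k α * av k N (cexp (-(I * α / N))) U)) (haarU N) :=
    ((cont_int (av_cont k N _)).const_mul _).const_mul _
  have e4 : ∫ U, (cexp ((κ : ℂ) * I) * (ro k α * av k N (cexp (-(I * α / N))) U)).re ∂(haarU N) =
      (∫ U, cexp ((κ : ℂ) * I) * (ro k α * av k N (cexp (-(I * α / N))) U) ∂(haarU N)).re := by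
    have := integral_re (𝕜 := ℂ) hi
    simpa using this
  rw [e4, integral_const_mul, integral_const_mul, hW]
  have e5 : cexp ((κ : ℂ) * I) * (ro k α * (((N : ℂ) ^ (k ^ 2))⁻¹ * ∫ U, av k N (cexp (-(I * α / N))) U ∂(haarU N))) =
      ((((N : ℝ) ^ (k ^ 2))⁻¹ : ℝ) : ℂ) *
        (cexp ((κ : ℂ) * I) * (ro k α * ∫ U, av k N (cexp (-(I * α / N))) U ∂(haarU N))) := by
    push_cast
    ring
  rw [e5, Complex.re_ofReal_mul]

lemma oN_one (k : ℕ) {N : ℕ} (hN : 1 ≤ N) : oN k N (fun _ => 1) = (Wk k 0 N).re := by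
  have h := oN_cos k hN 0 0
  simpa [ro_zero] using h

lemma oN_bound (k : ℕ) {N : ℕ} (hN : 1 ≤ N) {g : ℝ → ℝ} {η : ℝ} (hg : ∀ x ∈ Icc (0:ℝ) k, |g x| ≤ η) :
    |oN k N g| ≤ η * ‖Wk k 0 N‖ := by
  have hN0 : (0:ℝ) < N := by exact_mod_cast hN
  have hη : 0 ≤ η := (abs_nonneg _).trans (hg 0 ⟨le_rfl, Nat.cast_nonneg k⟩)
  have h1 : |oN k N g| ≤ η * oN k N (fun _ => 1) := by
    unfold oN
    rw [abs_mul, abs_of_nonneg (by positivity : (0:ℝ) ≤ ((N : ℝ) ^ (k ^ 2))⁻¹), mul_left_comm, ← integral_const_mul]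
    refine mul_le_mul_of_nonneg_left ?_ (by positivity)
    refine (abs_integral_le_integral_abs).trans (integral_mono (rint (sq_cont k N g)).abs
      ((rint (sq_cont k N (fun _ => 1))).const_mul η) fun U => ?_)
    beta_reduce
    rw [Finset.mul_sum]
    refine (Finset.abs_sum_le_sum_abs _ _).trans (Finset.sum_le_sum fun m hm => ?_)
    rw [abs_mul, abs_of_nonneg (by positivity : (0:ℝ) ≤ ‖(pp k (U : Matrix (Fin N) (Fin N) ℂ)).coeff m‖ ^ 2),
      mul_one, mul_comm]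
    refine mul_le_mul_of_nonneg_right (hg _ ⟨by positivity, ?_⟩) (by positivity)
    rw [div_le_iff₀ hN0]
    have : m ≤ k * N := by have := Finset.mem_range.1 hm; omega
    exact_mod_cast this
  refine h1.trans (mul_le_mul_of_nonneg_left ?_ hη)
  rw [oN_one k hN]
  exact Complex.re_le_norm _

end

end Pool.Agent.K4H66.LP
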