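import Pool.Agent.K4H66.LP.A

set_option autoImplicit false

/-! Approximation by trigonometric polynomials. -/

namespace Pool.Agent.K4H66.LP

open Complex MeasureTheory Filter Topology Set
open scoped ComplexConjugate

noncomputable section

lemma re_exp_phase (c : ℂ) (b : ℝ) : (c * cexp ((b : ℂ) * I)).re = ‖c‖ * Real.cos (b + c.arg) := by
  have h := Complex.norm_mul_exp_arg_mul_I c
  conv_lhs => rw [← h]
  rw [mul_assoc, ← Complex.exp_add, Complex.re_ofReal_mul]
  have e : (c.arg : ℂ) * I + (b : ℂ) * I = ((b + c.arg : ℝ) : ℂ) * I := by push_cast; ring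
  rw [e, Complex.exp_ofReal_mul_I_re]

theorem trig_approx {g : ℝ → ℝ} (hg : Continuous g) (hc : HasCompactSupport g) (k : ℕ) (B : ℝ) {η : ℝ} (hη : 0 < η) :
    ∃ (s : Finset ℤ) (r al ka : ℤ → ℝ), ∀ x ∈ Icc (-B) B,
      |g x - ∑ j ∈ s, r j * Real.cos (al j * (k - 2 * x) + ka j)| ≤ η := by
  obtain ⟨R, hR⟩ := hc.isCompact.isBounded.subset_closedBall (0:ℝ)
  set P : ℝ := 2 * (|R| + |B| + 1) with hP
  have hP0 : 0 < P := by positivity
  have : Fact (0 < P) := ⟨hP0⟩
  have hout : ∀ x : ℝ, |R| < |x| → g x = 0 := by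
    intro x hx
    by_contra h
    have h1 := hR (subset_tsupport g h)
    rw [Metric.mem_closedBall, dist_zero_right, Real.norm_eq_abs] at h1
    exact absurd (h1.trans (le_abs_self R)) (not_le.2 hx)
  have hP2 : |P / 2| = |R| + |B| + 1 := by
    rw [abs_of_pos (by positivity : (0:ℝ) < P / 2), hP]; ring
  have ha : g (-(P / 2)) = 0 := hout _ (by
    rw [abs_neg, hP2]
    have := abs_nonneg B
    linarith)
  have hb : g (-(P / 2) + P) = 0 := hout _ (by
    have e : -(P / 2) + P = P / 2 := by ring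
    rw [e, hP2]
    have := abs_nonneg B
    linarith)
  set F : C(AddCircle P, ℂ) := ⟨AddCircle.liftIco P (-(P / 2)) (fun x => (g x : ℂ)),
    AddCircle.liftIco_continuous (by beta_reduce; rw [ha, hb])
      ((Complex.continuous_ofReal.comp hg).continuousOn)⟩ with hF
  have hmem : F ∈ (Submodule.span ℂ (Set.range (@fourier P))).topologicalClosure := by
    rw [span_fourier_closure_eq_top]; trivial
  rw [← SetLike.mem_coe, Submodule.topologicalClosure_coe] at hmem
  obtain ⟨h, hh, hd⟩ := Metric.mem_closure_iff.1 hmem η hη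
  rw [SetLike.mem_coe, Finsupp.mem_span_range_iff_exists_finsupp] at hh
  obtain ⟨c, rfl⟩ := hh
  refine ⟨c.support, fun n => ‖c n‖, fun n => -(Real.pi * n / P), fun n => (c n).arg + k * (Real.pi * n / P), fun x hx => ?_⟩
  have hB1 : |x| ≤ |B| := (abs_le.2 hx).trans (le_abs_self B)
  have hx2 : x ∈ Ico (-(P / 2)) (-(P / 2) + P) := by
    have h1 := abs_le.1 (hB1)
    have := abs_nonneg R
    constructor
    · rw [hP]; linarith
    · rw [hP]; linarith
  have hFx : F (x : AddCircle P) = (g x : ℂ) :=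
    AddCircle.liftIco_coe_apply (f := fun x : ℝ => ((g x : ℝ) : ℂ)) hx2
  have h3 : ‖F (x : AddCircle P) - (c.sum fun i a => a • (fourier i : C(AddCircle P, ℂ))) (x : AddCircle P)‖ ≤ η := by
    have h4 : ‖(F - c.sum fun i a => a • (fourier i : C(AddCircle P, ℂ))) (x : AddCircle P)‖ ≤
        ‖F - c.sum fun i a => a • (fourier i : C(AddCircle P, ℂ))‖ := ContinuousMap.norm_coe_le_norm _ _
    rw [← dist_eq_norm] at h4
    exact h4.trans hd.le
  rw [hFx] at h3
  have h5 : (c.sum fun i a => a • (fourier i : C(AddCircle P, ℂ))) (x : AddCircle P) =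
      ∑ n ∈ c.support, c n * cexp (((2 * Real.pi * n * x / P : ℝ) : ℂ) * I) := by
    rw [Finsupp.sum, ContinuousMap.coe_sum, Finset.sum_apply]
    refine Finset.sum_congr rfl fun n _ => ?_
    rw [ContinuousMap.coe_smul, Pi.smul_apply, smul_eq_mul, fourier_coe_apply]
    congr 2
    push_cast
    ring
  rw [h5] at h3
  have h6 := (Complex.abs_re_le_norm _).trans h3
  rw [Complex.sub_re, Complex.ofReal_re, Complex.re_sum] at h6
  have h7 : ∑ n ∈ c.support, ‖c n‖ * Real.cos (-(Real.pi * n / P) * (k - 2 * x) + ((c n).arg + k * (Real.pi * n / P))) =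
      ∑ n ∈ c.support, (c n * cexp (((2 * Real.pi * n * x / P : ℝ) : ℂ) * I)).re := by
    refine Finset.sum_congr rfl fun n _ => ?_
    rw [re_exp_phase]
    congr 2
    ring
  beta_reduce
  rw [h7]
  exact h6

end

end Pool.Agent.K4H66.LP
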