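import Pool.Agent.K4H66.LP.B

set_option autoImplicit false

/-! The zeta side: mean squares of smooth Dirichlet polynomials as combinations of shifted moments. -/

namespace Pool.Agent.K4H66.LP

open Complex MeasureTheory Filter Topology Set Pool.Agent.TH535.SM Pool.Agent.K4H66.OL Pool.Agent.R446.KR
  Pool.Agent.K4H66.HL
open scoped ComplexConjugate ContDiff FourierTransform

noncomputable section

variable {φ : ℝ → ℂ} {k : ℕ} {c : ℝ}

/-- negligible quantities -/
def Neg (k : ℕ) (F : ℝ → ℝ) : Prop := ∀ ε : ℝ, 0 < ε → SmE k ε F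

lemma Neg.add {F G : ℝ → ℝ} (hF : Neg k F) (hG : Neg k G) : Neg k (fun T => F T + G T) := by
  intro ε hε
  have := (hF (ε / 2) (half_pos hε)).add (hG (ε / 2) (half_pos hε))
  exact this.mono (by linarith)

lemma Neg.mul {F : ℝ → ℝ} (hF : Neg k F) (r : ℝ) : Neg k (fun T => r * F T) := by
  intro ε hε
  refine ((hF (ε / (|r| + 1)) (by positivity)).mul r).mono ?_
  rw [mul_div_assoc', div_le_iff₀ (by positivity)]
  nlinarith [abs_nonneg r]

lemma Neg.zero : Neg k (fun _ => 0) := by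
  intro ε hε
  refine ⟨0, 4, le_rfl, le_rfl, fun T hT => ?_⟩
  have h1 : 0 ≤ M (zr k 0) (2 * T) := (mo_gr k).nn _ (by linarith)
  have h2 := (NN_pos (k ^ 2) (show 1 < T by linarith)).le
  rw [abs_zero, zero_mul, add_zero]
  positivity

lemma Neg.sum {ι : Type} {s : Finset ι} {F : ι → ℝ → ℝ} (h : ∀ j ∈ s, Neg k (F j)) :
    Neg k (fun T => ∑ j ∈ s, F j T) := by
  classical
  induction s using Finset.induction_on with
  | empty => simpa using Neg.zero (k := k)
  | insert a s ha ih =>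
    simp only [Finset.sum_insert ha]
    exact (h a (Finset.mem_insert_self _ _)).add (ih fun j hj => h j (Finset.mem_insert_of_mem hj))

lemma Neg.congr {F G : ℝ → ℝ} (h : Neg k F) (he : ∀ T : ℝ, 4 ≤ T → F T = G T) : Neg k G :=
  fun ε hε => (h ε hε).congr he

/-- the trigonometric polynomials -/
def tp (k : ℕ) (s : Finset ℤ) (r al ka : ℤ → ℝ) (x : ℝ) : ℝ :=
  ∑ j ∈ s, r j * Real.cos (al j * (k - 2 * x) + ka j)

lemma tp_cont (k : ℕ) (s : Finset ℤ) (r al ka : ℤ → ℝ) : Continuous (tp k s r al ka) := by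
  unfold tp; fun_prop

lemma tp_bd (k : ℕ) (s : Finset ℤ) (r al ka : ℤ → ℝ) (x : ℝ) : |tp k s r al ka x| ≤ ∑ j ∈ s, |r j| := by
  unfold tp
  refine (Finset.abs_sum_le_sum_abs _ _).trans (Finset.sum_le_sum fun j _ => ?_)
  rw [abs_mul]
  exact mul_le_of_le_one_right (abs_nonneg _) (Real.abs_cos_le_one _)

lemma Sf_tp (k : ℕ) {u : ℕ} (hu : 1 ≤ u) {T : ℝ} (hT : 1 < T) (s : Finset ℤ) (r al ka : ℤ → ℝ) :
    Sf k u T (tp k s r al ka) =
      ∑ j ∈ s, r j * (cexp (((k * al j + ka j : ℝ) : ℂ) * I) * SpC (f1 (H k u) T) (al j / Real.log T)).re := by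
  classical
  induction s using Finset.induction_on with
  | empty =>
    unfold tp Sf
    simp
  | insert a s ha ih =>
    have e : tp k (insert a s) r al ka = fun x => (fun y => r a * Real.cos (al a * (k - 2 * y) + ka a)) x +
        tp k s r al ka x := by
      funext x
      unfold tp
      rw [Finset.sum_insert ha]
    rw [e, Sf_add k hu hT.le (by fun_prop) (tp_cont k s r al ka) (b1 := |r a|)
      (fun x => by
        rw [abs_mul]
        exact mul_le_of_le_one_right (abs_nonneg _) (Real.abs_cos_le_one _)) (tp_bd k s r al ka), ih,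
      Sf_mul, Finset.sum_insert ha, SpC_re k hu hT]

/-- the combination of shifted window moments -/
def Cmb (k : ℕ) (s : Finset ℤ) (r al ka : ℤ → ℝ) (T : ℝ) : ℝ :=
  ∑ j ∈ s, r j * (cexp ((ka j : ℂ) * I) * (ro k (al j) * Qd (zr k 0) (al j / Real.log T) T)).re

lemma phase_eq (k : ℕ) (a κ : ℝ) (w : ℂ) :
    cexp (((k * a + κ : ℝ) : ℂ) * I) * w = cexp ((κ : ℂ) * I) * (ro k a * w) := by
  unfold ro
  rw [← mul_assoc, ← Complex.exp_add]
  congr 2
  push_cast
  ring

lemma Cmb_close (k : ℕ) {u : ℕ} (hu : 1 ≤ u) (s : Finset ℤ) (r al ka : ℤ → ℝ) :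
    Neg k (fun T => Cmb k s r al ka T - Sf k u T (tp k s r al ka)) := by
  have h : Neg k (fun T => ∑ j ∈ s, r j * ((cexp (((k * al j + ka j : ℝ) : ℂ) * I) * Qd (zr k 0) (al j / Real.log T) T).re -
      (cexp (((k * al j + ka j : ℝ) : ℂ) * I) * SpC (f1 (H k u) T) (al j / Real.log T)).re)) := by
    refine Neg.sum fun j _ => Neg.mul (fun ε hε => ?_) (r j)
    exact SmE_dy k (al j) hu hε _ (Complex.norm_exp_ofReal_mul_I _)
  refine h.congr fun T hT => ?_
  rw [Sf_tp k hu (by linarith)]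
  unfold Cmb
  rw [← Finset.sum_sub_distrib]
  refine Finset.sum_congr rfl fun j _ => ?_
  rw [mul_sub, phase_eq k (al j) (ka j) (Qd (zr k 0) (al j / Real.log T) T)]

lemma sup_small (k : ℕ) {u : ℕ} (hu : 2 ≤ u) {g : ℝ → ℝ} (hg : Continuous g) {b η : ℝ} (hb : ∀ x, |g x| ≤ b)
    (hη : 0 ≤ η) (hs : ∀ x ∈ Icc (-1:ℝ) (k + 1), |g x| ≤ η) : SmE k (3 * η) (fun T => Sf k u T g) := by
  obtain ⟨C, T0, hC, hT0, h⟩ := Sf_sup k (δ := 1) one_pos le_rfl (by
    have : (2:ℝ) ≤ u := by exact_mod_cast hu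
    linarith : (2:ℝ) ≤ 1 * u) hg hb hη hs
  refine SmE_of k (by omega : 1 ≤ u) hη ⟨C, T0, hC, hT0, fun T hT => (h T hT).trans ?_⟩
  have h1 : 0 ≤ M (zr k 0) (2 * T) := (mo_gr k).nn _ (by linarith)
  have h2 := mul_le_mul_of_nonneg_left (Rm_pos (zr k 0) T) hC
  have h3 := mul_nonneg hη h1
  linarith

lemma md_neg (h : TS φ) (k : ℕ) {u : ℕ} (hu : 1 ≤ u) : Neg k (fun T => mD φ k T - Sf k u T (fun x => ‖φ x‖ ^ 2)) := by
  intro ε hε
  have h1 := SmE_of k hu (ε := ε / 3) (by positivity) (mD_close h k hu (ε := ε / 3) (by positivity))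
  exact h1.mono (by linarith)

lemma sq_cs (h : TS φ) : HasCompactSupport (fun x => ‖φ x‖ ^ 2) := by
  refine HasCompactSupport.intro h.cs.isCompact fun x hx => ?_
  rw [image_eq_zero_of_notMem_tsupport hx]
  simp

lemma sq_ct (h : TS φ) : Continuous (fun x => ‖φ x‖ ^ 2) := h.cd.continuous.norm.pow 2

/-- the same combination of shifted moments for the zeta function and for random matrices -/
theorem dictionary (h : TS φ) (k : ℕ) {ε : ℝ} (hε : 0 < ε) : ∃ (s : Finset ℤ) (r al ka : ℤ → ℝ),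
    SmE k ε (fun T => mD φ k T - Cmb k s r al ka T) ∧
    ∀ N : ℕ, 1 ≤ N → |oN k N (fun x => ‖φ x‖ ^ 2) -
      ∑ j ∈ s, r j * (cexp ((ka j : ℂ) * I) * (ro k (al j) * Wk k (al j) N)).re| ≤ ε * ‖Wk k 0 N‖ := by
  obtain ⟨s, r, al, ka, hs⟩ := trig_approx (sq_ct h) (sq_cs h) k (k + 1) (η := ε / 6) (by positivity)
  obtain ⟨b, hb0, hb⟩ := h.bdd
  refine ⟨s, r, al, ka, ?_, fun N hN => ?_⟩
  · have h1 := md_neg h k (u := 2) (by norm_num) (ε / 4) (by positivity)
    have h2 := (Cmb_close k (u := 2) (by norm_num) s r al ka).mul (-1) (ε / 4) (by positivity)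
    have hb2 : ∀ x, |(fun x => ‖φ x‖ ^ 2 + (-1) * tp k s r al ka x) x| ≤ b ^ 2 + ∑ j ∈ s, |r j| := by
      intro x
      beta_reduce
      refine (abs_add_le _ _).trans (add_le_add ?_ ?_)
      · rw [abs_of_nonneg (by positivity)]
        exact pow_le_pow_left₀ (norm_nonneg _) (hb x) 2
      · rw [abs_mul, abs_neg, abs_one, one_mul]
        exact tp_bd k s r al ka x
    have h3 := sup_small k (u := 2) le_rfl (g := fun x => ‖φ x‖ ^ 2 + (-1) * tp k s r al ka x)
      ((sq_ct h).add ((tp_cont k s r al ka).const_mul (-1))) hb2 (η := ε / 6) (by positivity) (fun x hx => by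
        have hk0 : (0:ℝ) ≤ k := Nat.cast_nonneg k
        have := hs x ⟨by linarith [hx.1], hx.2⟩
        beta_reduce at this ⊢
        unfold tp
        rw [neg_one_mul, ← sub_eq_add_neg]
        exact this)
    have h4 := (h1.add h3).add h2
    refine (h4.mono (by linarith)).congr fun T hT => ?_
    beta_reduce
    rw [Sf_add k (u := 2) (by norm_num) (by linarith) (sq_ct h) ((tp_cont k s r al ka).const_mul (-1))
      (b1 := b ^ 2) (b2 := ∑ j ∈ s, |r j|), Sf_mul]
    · ring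
    · intro x
      rw [abs_of_nonneg (by positivity)]
      exact pow_le_pow_left₀ (norm_nonneg _) (hb x) 2
    · intro x
      rw [abs_mul, abs_neg, abs_one, one_mul]
      exact tp_bd k s r al ka x
  · have e : oN k N (fun x => ‖φ x‖ ^ 2) - ∑ j ∈ s, r j * (cexp ((ka j : ℂ) * I) * (ro k (al j) * Wk k (al j) N)).re =
        oN k N (fun x => ‖φ x‖ ^ 2 + (-1) * tp k s r al ka x) := by
      rw [oN_add, oN_mul]
      unfold tp
      rw [oN_sum]
      simp_rw [oN_mul, oN_cos k hN]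
      ring
    rw [e]
    refine (oN_bound k hN (η := ε / 6) fun x hx => ?_).trans ?_
    · have := hs x ⟨by have := hx.1; have : (0:ℝ) ≤ k := Nat.cast_nonneg k; linarith, by linarith [hx.2]⟩
      beta_reduce at this ⊢
      unfold tp
      rw [neg_one_mul, ← sub_eq_add_neg]
      exact this
    · have := norm_nonneg (Wk k 0 N)
      nlinarith

end

end Pool.Agent.K4H66.LP
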