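import Pool.Agent.K4H66.LP.C

set_option autoImplicit false

/-! Limits. -/

namespace Pool.Agent.K4H66.LP

open Complex MeasureTheory Filter Topology Set Pool.Agent.TH535.SM Pool.Agent.K4H66.OL Pool.Agent.R446.KR
  Pool.Agent.K4H66.HL
open scoped ComplexConjugate ContDiff FourierTransform

noncomputable section

variable {φ : ℝ → ℂ} {k : ℕ} {c : ℝ}

lemma SmE_ev (hm : Tendsto (fun T => M (zr k 0) T / NN (k ^ 2) T) atTop (𝓝 c)) {F : ℝ → ℝ} {ε : ℝ} (hε : 0 < ε)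
    (h : SmE k ε F) : ∀ᶠ T in atTop, |F T / NN (k ^ 2) T| ≤ ε * (|c * 2| + 3) := by
  have h2 := mratio (k ^ 2) hm two_pos (two_ratio 2)
  have hR := Rr_small hm
  obtain ⟨C, T0, hC, hT0, h1⟩ := h
  have ev2 := (Metric.tendsto_nhds.1 hR) (ε / (C + 1)) (by positivity)
  have ev3 := (Metric.tendsto_nhds.1 h2) 1 one_pos
  filter_upwards [ev2, ev3, eventually_ge_atTop T0] with T a2 a3 a4
  have hN := NN_pos (k ^ 2) (show 1 < T by linarith)
  have b1 := h1 T a4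
  rw [← Rr_eq] at b1
  rw [Real.dist_eq] at a2 a3
  have b2 : M (zr k 0) (2 * T) / NN (k ^ 2) T ≤ |c * 2| + 1 := by
    have := (abs_lt.1 a3).2
    have := le_abs_self (c * 2)
    linarith
  have b3 : Rr (M (zr k 0)) T / NN (k ^ 2) T ≤ ε / (C + 1) := by
    have := (abs_lt.1 a2).2
    linarith
  have b4 : |F T / NN (k ^ 2) T| ≤
      ε * (M (zr k 0) (2 * T) / NN (k ^ 2) T + 1) + C * (Rr (M (zr k 0)) T / NN (k ^ 2) T) := by
    rw [abs_div, abs_of_pos hN, div_le_iff₀ hN]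
    refine b1.trans (le_of_eq ?_)
    field_simp
  have b5 : C * (ε / (C + 1)) ≤ ε := by
    rw [mul_div_assoc', div_le_iff₀ (by positivity)]
    nlinarith
  have b6 : C * (Rr (M (zr k 0)) T / NN (k ^ 2) T) ≤ ε := (mul_le_mul_of_nonneg_left b3 hC).trans b5
  have b7 : ε * (M (zr k 0) (2 * T) / NN (k ^ 2) T + 1) ≤ ε * (|c * 2| + 1 + 1) := by gcongr
  linarith

/-- the value of the combination at a family of limits -/
def Cv (k : ℕ) (s : Finset ℤ) (r al ka : ℤ → ℝ) (W : ℝ → ℂ) : ℝ :=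
  ∑ j ∈ s, r j * (cexp ((ka j : ℂ) * I) * (ro k (al j) * W (al j))).re

lemma Cmb_lim {a : ℝ} {W : ℝ → ℂ}
    (hQ : ∀ α : ℝ, Tendsto (fun T => Qd (zr k 0) (α / Real.log T) T / ((NN (k ^ 2) T : ℝ) : ℂ)) atTop
      (𝓝 ((a : ℂ) * W α))) (s : Finset ℤ) (r al ka : ℤ → ℝ) :
    Tendsto (fun T => Cmb k s r al ka T / NN (k ^ 2) T) atTop (𝓝 (a * Cv k s r al ka W)) := by
  have h : Tendsto (fun T => ∑ j ∈ s, r j * (cexp ((ka j : ℂ) * I) * (ro k (al j) *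
      (Qd (zr k 0) (al j / Real.log T) T / ((NN (k ^ 2) T : ℝ) : ℂ)))).re) atTop
      (𝓝 (∑ j ∈ s, r j * (cexp ((ka j : ℂ) * I) * (ro k (al j) * ((a : ℂ) * W (al j)))).re)) := by
    refine tendsto_finsetSum _ fun j _ => Tendsto.const_mul _ ?_
    exact (Complex.continuous_re.tendsto _).comp (((hQ (al j)).const_mul _).const_mul _)
  have e1 : ∑ j ∈ s, r j * (cexp ((ka j : ℂ) * I) * (ro k (al j) * ((a : ℂ) * W (al j)))).re =
      a * Cv k s r al ka W := by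
    unfold Cv
    rw [Finset.mul_sum]
    refine Finset.sum_congr rfl fun j _ => ?_
    have e2 : cexp ((ka j : ℂ) * I) * (ro k (al j) * ((a : ℂ) * W (al j))) =
        (a : ℂ) * (cexp ((ka j : ℂ) * I) * (ro k (al j) * W (al j))) := by ring
    rw [e2, Complex.re_ofReal_mul]
    ring
  rw [e1] at h
  refine h.congr fun T => ?_
  unfold Cmb
  rw [Finset.sum_div]
  refine Finset.sum_congr rfl fun j _ => ?_
  have e3 : cexp ((ka j : ℂ) * I) * (ro k (al j) * (Qd (zr k 0) (al j / Real.log T) T / ((NN (k ^ 2) T : ℝ) : ℂ))) =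
      cexp ((ka j : ℂ) * I) * (ro k (al j) * Qd (zr k 0) (al j / Real.log T) T) / ((NN (k ^ 2) T : ℝ) : ℂ) := by ring
  rw [e3, Complex.div_ofReal_re]
  ring

lemma mat_lim {W : ℝ → ℂ} (hW : ∀ α : ℝ, Tendsto (fun N : ℕ => Wk k α N) atTop (𝓝 (W α)))
    (s : Finset ℤ) (r al ka : ℤ → ℝ) :
    Tendsto (fun N : ℕ => ∑ j ∈ s, r j * (cexp ((ka j : ℂ) * I) * (ro k (al j) * Wk k (al j) N)).re) atTop
      (𝓝 (Cv k s r al ka W)) := by
  refine tendsto_finsetSum _ fun j _ => Tendsto.const_mul _ ?_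
  exact (Complex.continuous_re.tendsto _).comp (((hW (al j)).const_mul _).const_mul _)

lemma lim_of_close {u : ℕ → ℝ} (h : ∀ ε : ℝ, 0 < ε → ∃ S : ℝ, ∀ᶠ n in atTop, |u n - S| ≤ ε) :
    ∃ w : ℝ, Tendsto u atTop (𝓝 w) := by
  refine cauchySeq_tendsto_of_complete (Metric.cauchySeq_iff'.2 fun ε hε => ?_)
  obtain ⟨S, hS⟩ := h (ε / 3) (by positivity)
  obtain ⟨N0, hN0⟩ := eventually_atTop.1 hS
  refine ⟨N0, fun n hn => ?_⟩
  rw [Real.dist_eq]
  have h1 := hN0 n hn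
  have h2 := hN0 N0 le_rfl
  have e : u n - u N0 = (u n - S) - (u N0 - S) := by ring
  rw [e]
  refine (abs_sub _ _).trans_lt ?_
  linarith

theorem oN_exists {W : ℝ → ℂ} (hW : ∀ α : ℝ, Tendsto (fun N : ℕ => Wk k α N) atTop (𝓝 (W α))) (h : TS φ) :
    ∃ w : ℝ, Tendsto (fun N : ℕ => oN k N (fun x => ‖φ x‖ ^ 2)) atTop (𝓝 w) := by
  refine lim_of_close fun ε hε => ?_
  obtain ⟨s, r, al, ka, -, hd⟩ := dictionary h k (ε := ε / (2 * (‖W 0‖ + 1))) (by positivity)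
  refine ⟨Cv k s r al ka W, ?_⟩
  have ev1 := (hW 0).norm.eventually_le_const (show ‖W 0‖ < ‖W 0‖ + 1 by linarith)
  have ev2 := (Metric.tendsto_nhds.1 (mat_lim hW s r al ka)) (ε / 2) (by positivity)
  filter_upwards [ev1, ev2, eventually_ge_atTop 1] with N a1 a2 a3
  have b1 := hd N a3
  rw [Real.dist_eq] at a2
  have b2 : ε / (2 * (‖W 0‖ + 1)) * ‖Wk k 0 N‖ ≤ ε / 2 := by
    calc _ ≤ ε / (2 * (‖W 0‖ + 1)) * (‖W 0‖ + 1) := by gcongr
      _ = _ := by field_simp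
  have b3 := b1.trans b2
  rw [abs_le] at b3 ⊢
  have a2' := abs_lt.1 a2
  constructor <;> linarith [b3.1, b3.2, a2'.1, a2'.2]

/-- all shifted moments determine all mean squares -/
theorem forward {a : ℝ} {W : ℝ → ℂ} (hW : ∀ α : ℝ, Tendsto (fun N : ℕ => Wk k α N) atTop (𝓝 (W α)))
    (hX : ∀ α : ℝ, Tendsto (Xs k α) atTop (𝓝 ((a : ℂ) * W α))) (h : TS φ) {w : ℝ}
    (hw : Tendsto (fun N : ℕ => oN k N (fun x => ‖φ x‖ ^ 2)) atTop (𝓝 w)) :
    Tendsto (fun T => mD φ k T / NN (k ^ 2) T) atTop (𝓝 (a * w)) := by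
  have hm : Tendsto (fun T => M (zr k 0) T / NN (k ^ 2) T) atTop (𝓝 (((a : ℂ) * W 0).re)) := by
    have h1 := (Complex.continuous_re.tendsto _).comp (hX 0)
    refine h1.congr fun T => ?_
    simp only [Function.comp]
    rw [Xs_zero, Complex.ofReal_re]
  set c : ℝ := ((a : ℂ) * W 0).re with hc
  have hQ : ∀ α : ℝ, Tendsto (fun T => Qd (zr k 0) (α / Real.log T) T / ((NN (k ^ 2) T : ℝ) : ℂ)) atTop
      (𝓝 ((a : ℂ) * W α)) := fun α => Qd_of_Xs α hm (hX α)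
  rw [Metric.tendsto_nhds]
  intro ε hε
  set K : ℝ := (|c * 2| + 3) + |a| * (‖W 0‖ + 1) + 1 with hK
  have hK1 : |c * 2| + 3 ≤ K := by
    have : 0 ≤ |a| * (‖W 0‖ + 1) := by positivity
    rw [hK]; linarith
  have hK2 : |a| * ‖W 0‖ ≤ K := by
    have h1 := abs_nonneg (c * 2)
    have h2 : |a| * ‖W 0‖ ≤ |a| * (‖W 0‖ + 1) := mul_le_mul_of_nonneg_left (by linarith) (abs_nonneg a)
    rw [hK]; linarith
  have hK0 : 0 < K := by have := abs_nonneg (c * 2); linarith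
  obtain ⟨s, r, al, ka, hS, hd⟩ := dictionary h k (ε := ε / (4 * K)) (by positivity)
  have hwS : |w - Cv k s r al ka W| ≤ ε / (4 * K) * ‖W 0‖ := by
    refine le_of_tendsto_of_tendsto ((hw.sub (mat_lim hW s r al ka)).abs) ((hW 0).norm.const_mul (ε / (4 * K))) ?_
    filter_upwards [eventually_ge_atTop 1] with N hN using hd N hN
  have ev1 := SmE_ev hm (by positivity : 0 < ε / (4 * K)) hS
  have ev2 := (Metric.tendsto_nhds.1 (Cmb_lim hQ s r al ka)) (ε / 4) (by positivity)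
  filter_upwards [ev1, ev2] with T a1 a2
  rw [Real.dist_eq] at a2 ⊢
  have b1 : ε / (4 * K) * (|c * 2| + 3) ≤ ε / 4 := by
    calc _ ≤ ε / (4 * K) * K := by gcongr
      _ = _ := by field_simp
  have b2 : |a * (w - Cv k s r al ka W)| ≤ ε / 4 := by
    rw [abs_mul]
    calc _ ≤ |a| * (ε / (4 * K) * ‖W 0‖) := by gcongr
      _ = ε / (4 * K) * (|a| * ‖W 0‖) := by ring
      _ ≤ ε / (4 * K) * K := by gcongr
      _ = _ := by field_simp
  have b3 : mD φ k T / NN (k ^ 2) T - a * w = (mD φ k T - Cmb k s r al ka T) / NN (k ^ 2) T +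
      (Cmb k s r al ka T / NN (k ^ 2) T - a * Cv k s r al ka W) - a * (w - Cv k s r al ka W) := by ring
  rw [b3]
  have c1 := abs_le.1 (a1.trans b1)
  have c2 := abs_lt.1 a2
  have c3 := abs_le.1 b2
  rw [abs_lt]
  constructor <;> linarith [c1.1, c1.2, c2.1, c2.2, c3.1, c3.2]

/-- a cut-off equal to one on `[-1, k+1]` -/
lemma exists_one (k : ℕ) : ∃ f : ℝ → ℝ, TS (cx f) ∧ Continuous f ∧ (∀ x, 0 ≤ f x ∧ f x ≤ 1) ∧
    ∀ x ∈ Icc (-1:ℝ) (k + 1), f x = 1 := by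
  have hk : (0:ℝ) ≤ k := Nat.cast_nonneg k
  let f : ContDiffBump ((k : ℝ) / 2) := ⟨k / 2 + 1, k / 2 + 2, by positivity, by linarith⟩
  refine ⟨f, cx_TS f.contDiff f.hasCompactSupport, f.continuous, fun x => ⟨f.nonneg, f.le_one⟩, fun x hx => ?_⟩
  refine f.one_of_mem_closedBall ?_
  rw [Metric.mem_closedBall, Real.dist_eq, abs_le]
  change -((k:ℝ) / 2 + 1) ≤ x - k / 2 ∧ x - k / 2 ≤ (k:ℝ) / 2 + 1
  constructor <;> linarith [hx.1, hx.2]

end

end Pool.Agent.K4H66.LP
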