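import Pool.Agent.K4H66.LP.D

set_option autoImplicit false

/-! From mean squares back to shifted moments. -/

namespace Pool.Agent.K4H66.LP

open Complex MeasureTheory Filter Topology Set Pool.Agent.TH535.SM Pool.Agent.K4H66.OL Pool.Agent.R446.KR
  Pool.Agent.K4H66.HL
open scoped ComplexConjugate ContDiff FourierTransform

noncomputable section

variable {k : ℕ} {c : ℝ} {f : ℝ → ℝ}

lemma SmE0_neg {F : ℝ → ℝ} (h : SmE k 0 F) : Neg k F := fun _ hε => h.mono hε.le

lemma Neg_of_ineq {F : ℝ → ℝ} (h : ∀ ε : ℝ, 0 < ε → ∃ C T0 : ℝ, 0 ≤ C ∧ 4 ≤ T0 ∧ ∀ T : ℝ, T0 ≤ T →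
    |F T| ≤ ε * M (zr k 0) (2 * T) + C * Rm (zr k 0) T) : Neg k F := by
  intro ε hε
  obtain ⟨C, T0, hC, hT0, h1⟩ := h ε hε
  refine ⟨C, T0, hC, hT0, fun T hT => (h1 T hT).trans ?_⟩
  have h2 := (NN_pos (k ^ 2) (show 1 < T by linarith)).le
  have h3 := mul_nonneg hε.le h2
  linarith

/-- the window moment is the mean square of one very long polynomial -/
lemma long_neg (h : TS (cx f)) (hf1 : ∀ x ∈ Icc (-1:ℝ) (k + 1), f x = 1) :
    Neg k (fun T => mD (cx f) k T - (M (zr k 0) (2 * T) - M (zr k 0) T)) := by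
  obtain ⟨b, hb0, hb⟩ := h.bdd
  have h1 := md_neg h k (u := 2) (by norm_num)
  have h2 : Neg k (fun T => (∫ t, ‖f1 (H k 2) T t‖ ^ 2) - (M (zr k 0) (2 * T) - M (zr k 0) T)) :=
    Neg_of_ineq fun ε hε => mass_close k (u := 2) (by norm_num) hε
  have h3 : Neg k (fun T => Sf k 2 T (fun x => ‖cx f x‖ ^ 2 + (-1))) := by
    refine SmE0_neg ((sup_small k (u := 2) le_rfl ((sq_ct h).add continuous_const) (b := b ^ 2 + 1)
      (η := 0) (fun x => ?_) le_rfl fun x hx => ?_).mono (by norm_num))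
    · refine (abs_add_le _ _).trans (add_le_add ?_ (by rw [abs_neg, abs_one]))
      rw [abs_of_nonneg (by positivity)]
      exact pow_le_pow_left₀ (norm_nonneg _) (hb x) 2
    · change |‖cx f x‖ ^ 2 + (-1 : ℝ)| ≤ 0
      rw [cx_sq, hf1 x hx]; norm_num
  refine ((h1.add h3).add h2).congr fun T hT => ?_
  beta_reduce
  rw [Sf_add k (u := 2) (by norm_num) (by linarith) (sq_ct h) continuous_const (b1 := b ^ 2) (b2 := 1)]
  · have e : Sf k 2 T (fun _ => (-1:ℝ)) = - ∫ t, ‖f1 (H k 2) T t‖ ^ 2 := by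
      have := Sf_mul k 2 T (-1) (fun _ => 1)
      rw [Sf_one k (u := 2) (by norm_num) (by linarith)] at this
      simp only [mul_one] at this
      rw [this]
      ring
    rw [e]
    ring
  · intro x
    rw [abs_of_nonneg (by positivity)]
    exact pow_le_pow_left₀ (norm_nonneg _) (hb x) 2
  · intro x; rw [abs_neg, abs_one]

lemma Neg_cmp {F : ℝ → ℝ} (h : Neg k (fun T => F T - (M (zr k 0) (2 * T) - M (zr k 0) T))) :
    Cmp (M (zr k 0)) F (k ^ 2) := by
  intro ε hε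
  obtain ⟨C, T0, hC, hT0, h1⟩ := h ε hε
  refine ⟨C, T0, hC, hT0, fun T hT => ?_⟩
  rw [Rr_eq]
  exact h1 T hT

/-- polarisation on the zeta side -/
theorem dual_neg (h : TS (cx f)) (hf1 : ∀ x ∈ Icc (-1:ℝ) (k + 1), f x = 1) (α : ℝ) :
    Neg k (fun T => (mD (ps (cx f) k α 1) k T - mD (ps (cx f) k α (-1)) k T) / 4 -
      (ro k α * Qd (zr k 0) (α / Real.log T) T).re) := by
  obtain ⟨b, hb0, hb⟩ := h.bdd
  have hcos : Continuous (fun x : ℝ => Real.cos (α * (k - 2 * x))) := by fun_prop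
  have hk : (0:ℝ) ≤ k := Nat.cast_nonneg k
  have h1 : Neg k (fun T => 2 * (cexp (((k * α : ℝ) : ℂ) * I) * Ac (cx f) k α T).re -
      (Sf k 2 T (fun x => ‖cx f x‖ ^ 2 * Real.cos (α * (k - 2 * x))) +
        Sf k 2 T (fun x => ‖cx f (k - x)‖ ^ 2 * Real.cos (α * (k - 2 * x))))) :=
    fun ε hε => pol_close h k α (u := 2) (by norm_num) hε
  have hbc : ∀ (y x : ℝ), |(‖cx f y‖ ^ 2 * Real.cos (α * (k - 2 * x)))| ≤ b ^ 2 := by
    intro y x
    rw [abs_mul, abs_of_nonneg (by positivity)]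
    calc _ ≤ b ^ 2 * 1 := by
          gcongr
          · exact hb y
          · exact Real.abs_cos_le_one _
      _ = _ := mul_one _
  have hbn : ∀ x : ℝ, |((-1:ℝ) * Real.cos (α * (k - 2 * x)))| ≤ 1 := by
    intro x
    rw [abs_mul, abs_neg, abs_one, one_mul]
    exact Real.abs_cos_le_one _
  have ct1 : Continuous (fun x : ℝ => ‖cx f x‖ ^ 2 * Real.cos (α * (k - 2 * x))) := (sq_ct h).mul hcos
  have ct2 : Continuous (fun x : ℝ => ‖cx f (k - x)‖ ^ 2 * Real.cos (α * (k - 2 * x))) :=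
    ((sq_ct h).comp (continuous_const.sub continuous_id)).mul hcos
  have ct3 : Continuous (fun x : ℝ => (-1:ℝ) * Real.cos (α * (k - 2 * x))) := hcos.const_mul _
  have h2 : Neg k (fun T => Sf k 2 T (fun x => ‖cx f x‖ ^ 2 * Real.cos (α * (k - 2 * x)) +
      (-1) * Real.cos (α * (k - 2 * x)))) := by
    refine SmE0_neg ((sup_small k (u := 2) le_rfl (ct1.add ct3) (b := b ^ 2 + 1)
      (η := 0) (fun x => (abs_add_le _ _).trans (add_le_add (hbc x x) (hbn x))) le_rfl fun x hx => ?_).mono (by norm_num))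
    change |‖cx f x‖ ^ 2 * Real.cos (α * (k - 2 * x)) + (-1:ℝ) * Real.cos (α * (k - 2 * x))| ≤ 0
    rw [cx_sq, hf1 x hx]
    refine le_of_eq ?_
    rw [abs_eq_zero]; ring
  have h3 : Neg k (fun T => Sf k 2 T (fun x => ‖cx f (k - x)‖ ^ 2 * Real.cos (α * (k - 2 * x)) +
      (-1) * Real.cos (α * (k - 2 * x)))) := by
    refine SmE0_neg ((sup_small k (u := 2) le_rfl (ct2.add ct3) (b := b ^ 2 + 1)
      (η := 0) (fun x => (abs_add_le _ _).trans (add_le_add (hbc (k - x) x) (hbn x))) le_rfl fun x hx => ?_).mono (by norm_num))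
    change |‖cx f (k - x)‖ ^ 2 * Real.cos (α * (k - 2 * x)) + (-1:ℝ) * Real.cos (α * (k - 2 * x))| ≤ 0
    rw [cx_sq, hf1 (k - x) ⟨by linarith [hx.2], by linarith [hx.1]⟩]
    refine le_of_eq ?_
    rw [abs_eq_zero]; ring
  have h4 : Neg k (fun T => (ro k α * Qd (zr k 0) (α / Real.log T) T).re -
      (ro k α * SpC (f1 (H k 2) T) (α / Real.log T)).re) :=
    fun ε hε => SmE_dy k α (u := 2) (by norm_num) hε _ (ro_norm k α)
  have h5 := ((h1.mul (1 / 2)).add ((h2.add h3).mul (1 / 2))).add (h4.mul (-1))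
  refine h5.congr fun T hT => ?_
  beta_reduce
  rw [Sf_add k (u := 2) (by norm_num) (by linarith) ct1 ct3 (fun x => hbc x x) hbn,
    Sf_add k (u := 2) (by norm_num) (by linarith) ct2 ct3 (fun x => hbc (k - x) x) hbn,
    Ac_pol h k α (by linarith), Sf_mul k 2 T (-1) (fun x => Real.cos (α * (k - 2 * x)))]
  have e := SpC_re k (u := 2) (by norm_num) (show 1 < T by linarith) α 0
  simp only [add_zero] at e
  unfold ro
  rw [e]
  ring

/-- polarisation on the matrix side -/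
theorem dual_mat (hf1 : ∀ x ∈ Icc (-1:ℝ) (k + 1), f x = 1) (α : ℝ) {N : ℕ} (hN : 1 ≤ N) :
    (oN k N (fun x => ‖ps (cx f) k α 1 x‖ ^ 2) - oN k N (fun x => ‖ps (cx f) k α (-1) x‖ ^ 2)) / 4 =
      (ro k α * Wk k α N).re := by
  have hk : (0:ℝ) ≤ k := Nat.cast_nonneg k
  have e1 : (fun x => ‖ps (cx f) k α 1 x‖ ^ 2) = fun x => ‖ps (cx f) k α (-1) x‖ ^ 2 +
      4 * (‖cx f x‖ ^ 2 * Real.cos (α * (k - 2 * x))) := by
    funext x
    rw [ps_sq _ _ _ _ (by norm_num), ps_sq _ _ _ _ (by norm_num)]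
    ring
  have e2 : oN k N (fun x => ‖cx f x‖ ^ 2 * Real.cos (α * (k - 2 * x))) =
      oN k N (fun x => Real.cos (α * (k - 2 * x))) := by
    have h1 := oN_bound k hN (g := fun x => ‖cx f x‖ ^ 2 * Real.cos (α * (k - 2 * x)) +
      (-1) * Real.cos (α * (k - 2 * x))) (η := 0) fun x hx => by
        rw [cx_sq, hf1 x ⟨by linarith [hx.1], by linarith [hx.2]⟩]
        refine le_of_eq ?_
        rw [abs_eq_zero]; ring
    rw [oN_add, oN_mul, zero_mul] at h1
    have h2 := abs_eq_zero.1 (le_antisymm h1 (abs_nonneg _))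
    linarith
  have e3 := oN_cos k hN α 0
  simp only [add_zero, Complex.ofReal_zero, zero_mul, Complex.exp_zero, one_mul] at e3
  rw [e1, oN_add, oN_mul, e2, e3]
  ring

/-- all mean squares determine all shifted moments -/
theorem backward {a : ℝ} {W : ℝ → ℂ} (hW : ∀ α : ℝ, Tendsto (fun N : ℕ => Wk k α N) atTop (𝓝 (W α)))
    (hD : ∀ φ : ℝ → ℂ, TS φ → ∀ w : ℝ, Tendsto (fun N : ℕ => oN k N (fun x => ‖φ x‖ ^ 2)) atTop (𝓝 w) →
      Tendsto (fun T => mD φ k T / NN (k ^ 2) T) atTop (𝓝 (a * w))) (α : ℝ) :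
    Tendsto (Xs k α) atTop (𝓝 ((a : ℂ) * W α)) := by
  obtain ⟨f, hf, -, -, hf1⟩ := exists_one k
  obtain ⟨w0, hw0⟩ := oN_exists hW hf
  have hm : Tendsto (fun T => M (zr k 0) T / NN (k ^ 2) T) atTop (𝓝 (a * w0)) :=
    (tb_iff (mo_gr k) (Neg_cmp (long_neg hf hf1)) _).2 (hD _ hf w0 hw0)
  refine Xs_of_Qd α hm ?_
  obtain ⟨w1, hw1⟩ := oN_exists hW (ps_TS hf k α 1)
  obtain ⟨w2, hw2⟩ := oN_exists hW (ps_TS hf k α (-1))
  have hd1 := hD _ (ps_TS hf k α 1) w1 hw1
  have hd2 := hD _ (ps_TS hf k α (-1)) w2 hw2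
  have hre : (w1 - w2) / 4 = (ro k α * W α).re := by
    refine tendsto_nhds_unique ((hw1.sub hw2).div_const 4) ?_
    have h1 : Tendsto (fun N : ℕ => (ro k α * Wk k α N).re) atTop (𝓝 (ro k α * W α).re) :=
      (Complex.continuous_re.tendsto _).comp ((hW α).const_mul _)
    refine h1.congr' ?_
    filter_upwards [eventually_ge_atTop 1] with N hN using (dual_mat hf1 α hN).symm
  have him : (ro k α * W α).im = 0 := by
    have h1 : Tendsto (fun N : ℕ => (ro k α * Wk k α N).im) atTop (𝓝 (ro k α * W α).im) :=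
      (Complex.continuous_im.tendsto _).comp ((hW α).const_mul _)
    refine tendsto_nhds_unique h1 ?_
    refine tendsto_const_nhds.congr' ?_
    filter_upwards [eventually_ge_atTop 1] with N hN
    exact (Complex.conj_eq_iff_im.1 (Wk_real k hN α)).symm
  have hqr : Tendsto (fun T => (ro k α * Qd (zr k 0) (α / Real.log T) T).re / NN (k ^ 2) T) atTop
      (𝓝 (a * (ro k α * W α).re)) := by
    have h1 := SmE_lim hm (dual_neg hf hf1 α)
    have h2 := ((hd1.sub hd2).div_const 4).sub h1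
    have e : (a * w1 - a * w2) / 4 - 0 = a * (ro k α * W α).re := by rw [← hre]; ring
    rw [e] at h2
    refine h2.congr fun T => ?_
    ring
  have hqi : Tendsto (fun T => (ro k α * Qd (zr k 0) (α / Real.log T) T).im / NN (k ^ 2) T) atTop (𝓝 0) :=
    SmE_lim hm fun ε hε => im_small k α hε
  have hq : Tendsto (fun T => ro k α * (Qd (zr k 0) (α / Real.log T) T / ((NN (k ^ 2) T : ℝ) : ℂ))) atTop
      (𝓝 ((a : ℂ) * (ro k α * W α))) := by
    have h1 : Tendsto (fun T => (((ro k α * Qd (zr k 0) (α / Real.log T) T).re / NN (k ^ 2) T : ℝ) : ℂ) +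
        (((ro k α * Qd (zr k 0) (α / Real.log T) T).im / NN (k ^ 2) T : ℝ) : ℂ) * I) atTop
        (𝓝 (((a * (ro k α * W α).re : ℝ) : ℂ) + ((0 : ℝ) : ℂ) * I)) :=
      ((Complex.continuous_ofReal.tendsto _).comp hqr).add
        (((Complex.continuous_ofReal.tendsto _).comp hqi).mul_const I)
    have e1 : ((a * (ro k α * W α).re : ℝ) : ℂ) + ((0 : ℝ) : ℂ) * I = (a : ℂ) * (ro k α * W α) := by
      have := Complex.re_add_im (ro k α * W α)
      rw [him] at this
      rw [← this]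
      push_cast
      simp
    rw [e1] at h1
    refine h1.congr fun T => ?_
    set w := ro k α * Qd (zr k 0) (α / Real.log T) T with hw
    have e2 : ro k α * (Qd (zr k 0) (α / Real.log T) T / ((NN (k ^ 2) T : ℝ) : ℂ)) = w / ((NN (k ^ 2) T : ℝ) : ℂ) := by
      rw [hw]; ring
    rw [e2]
    conv_rhs => rw [← Complex.re_add_im w]
    push_cast
    ring
  have hne : ro k α ≠ 0 := by
    intro h
    have := ro_norm k α
    rw [h, norm_zero] at this
    exact zero_ne_one this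
  have h2 := hq.const_mul (ro k α)⁻¹
  have e3 : (ro k α)⁻¹ * ((a : ℂ) * (ro k α * W α)) = (a : ℂ) * W α := by field_simp
  rw [e3] at h2
  refine h2.congr fun T => ?_
  rw [inv_mul_cancel_left₀ hne]

end

end Pool.Agent.K4H66.LP
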