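import Pool.Agent.K4H66.LP.E

set_option autoImplicit false

/-! Exceptional sets for approximations with a fixed error. -/

namespace Pool.Agent.K4H66.LP

open Complex MeasureTheory Filter Topology Set Pool.Agent.TH535.SM Pool.Agent.K4H66.OL Pool.Agent.R446.KR
  Pool.Agent.K4H66.HL
open scoped ComplexConjugate ContDiff FourierTransform

noncomputable section

variable {k : ℕ}

theorem SmE_exc1 (hk : 2 ≤ k) : ∃ K : ℝ, 0 < K ∧ ∀ (F : ℝ → ℝ) (ε : ℝ), 0 < ε → SmE k ε F →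
    ∃ C X0 : ℝ, 0 ≤ C ∧ 4 ≤ X0 ∧ ∀ X : ℝ, X0 ≤ X → ∃ E : Set ℝ, MeasurableSet E ∧ E ⊆ Icc X (2 * X) ∧
      (volume : Measure ℝ).real E ≤ C * (√X * Real.log X) ∧ ∀ T ∈ Icc X (2 * X), T ∉ E →
        |F T| ≤ K * ε * M (zr k 0) (2 * T) := by
  obtain ⟨c, hc, hl⟩ := low_bound hk
  obtain ⟨T1, hT1⟩ := eventually_atTop.1 hl
  have g := mo_gr k
  refine ⟨1 + c⁻¹ + 2, by positivity, fun F ε hε h => ?_⟩
  obtain ⟨C1, T0, hC1, hT0, h1⟩ := h
  set η : ℝ := ε / (C1 + 1) with hη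
  have hηp : 0 < η := by positivity
  have hη1 : C1 * η ≤ ε := by
    rw [hη, mul_div_assoc', div_le_iff₀ (by positivity)]
    nlinarith
  obtain ⟨C, hC, h2⟩ := exc2 g hηp
  obtain ⟨T2, hT2⟩ := eventually_atTop.1 ((NN_inf (k ^ 2)).eventually_ge_atTop ((C1 * (1 + η)) / (ε * c)))
  refine ⟨C, max (max (max T0 T2) T1) 4, hC, le_max_right _ _, fun X hX => ?_⟩
  have x0 : max (max T0 T2) T1 ≤ X := (le_max_left _ _).trans hX
  have x1 : T0 ≤ X := ((le_max_left _ _).trans (le_max_left _ _)).trans x0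
  have x2 : T2 ≤ X := ((le_max_right _ _).trans (le_max_left _ _)).trans x0
  have x3 : T1 ≤ X := (le_max_right _ _).trans x0
  have x4 : 4 ≤ X := (le_max_right _ _).trans hX
  obtain ⟨E, d1, d2, d3, d4⟩ := h2 X x4
  refine ⟨E, d1, d2, d3, fun T hT hTE => ?_⟩
  have a1 := h1 T (x1.trans hT.1)
  have a2 := d4 T hT hTE
  have a3 := hT2 T (x2.trans hT.1)
  have a4 := mul_le_mul_of_nonneg_left a2 hC1
  have a5 := hT1 T (x3.trans hT.1)
  have a6 := g.mono (show T ≤ 2 * T by linarith [hT.1])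
  have a7 := g.nn (2 * T) (by linarith [hT.1])
  have hN := NN_pos (k ^ 2) (show 1 < T by linarith [hT.1])
  have a8 : NN (k ^ 2) T ≤ c⁻¹ * M (zr k 0) (2 * T) := by
    rw [inv_mul_eq_div, le_div_iff₀ hc]
    linarith
  rw [div_le_iff₀ (by positivity)] at a3
  have a9 : C1 * (1 + η) ≤ ε * M (zr k 0) (2 * T) := by
    have : NN (k ^ 2) T * (ε * c) = ε * (c * NN (k ^ 2) T) := by ring
    rw [this] at a3
    refine a3.trans ?_
    gcongr
    linarith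
  have a10 : ε * (M (zr k 0) (2 * T) + NN (k ^ 2) T) ≤ ε * ((1 + c⁻¹) * M (zr k 0) (2 * T)) := by
    gcongr
    linarith
  have a11 : C1 * η * M (zr k 0) (2 * T) ≤ ε * M (zr k 0) (2 * T) := mul_le_mul_of_nonneg_right hη1 a7
  rw [Rr_eq] at a4
  calc |F T| ≤ _ := a1
    _ ≤ ε * ((1 + c⁻¹) * M (zr k 0) (2 * T)) + (C1 * η * M (zr k 0) (2 * T) + C1 * (1 + η)) := by linarith
    _ ≤ ε * ((1 + c⁻¹) * M (zr k 0) (2 * T)) + (ε * M (zr k 0) (2 * T) + ε * M (zr k 0) (2 * T)) := by linarith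
    _ = _ := by ring

end

end Pool.Agent.K4H66.LP
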